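import Pool.Agent.H73.KG.Stmts
import Pool.Agent.H27.KL.FB

/-! Module BAY of project KG: the formula of Bayes. -/

set_option autoImplicit false

open MeasureTheory Set Filter Topology

namespace Pool.Agent.H73.KG

open Pool.Agent.H84 Pool.Agent.H84.Sym Pool.Agent.H84.Sym.P2x Pool.Agent.H84.Sym.C29
open Pool.Agent.H19.KL

section BAYsec

variable {E : Type} [NormedAddCommGroup E] [InnerProductSpace ℝ E]
    [FiniteDimensional ℝ E] [MeasurableSpace E] [BorelSpace E]

theorem BAY_gp : (gp : E → ℝ) = np (fun _ => (0:ℝ)) 1 0 := by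
  funext x
  unfold gp np pt NI gs pt
  simp

theorem BAY_gpot : ∃ t C : ℝ, Pot (gp : E → ℝ) t C := by
  obtain ⟨t, C, h⟩ := (adm_zero (E := E) one_pos).pot 0
  exact ⟨t, C, by rw [BAY_gp]; exact np_pot h⟩

theorem BAY_gprob : IsProbabilityMeasure (mu (gp : E → ℝ)) := by
  rw [BAY_gp]
  exact prob_np (adm_zero one_pos) 0


omit [FiniteDimensional ℝ E] [MeasurableSpace E] [BorelSpace E] in
theorem BAY_gc_in {F : E → ℝ} (hF : GC F) (s : ℝ) (x : E) :
    GC (fun g : E => F (s • x + Real.sqrt s • g)) := by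
  obtain ⟨A, B, hA, hB, hAB⟩ := Gr.norm hF.2
  refine ⟨hF.1.comp (by fun_prop), A * Real.exp (B * (|s| * ‖x‖)), B * Real.sqrt s, fun g => ?_⟩
  refine (hAB _).trans ?_
  rw [mul_assoc, ← Real.exp_add]
  apply mul_le_mul_of_nonneg_left _ hA
  apply Real.exp_le_exp.2
  have h1 : ‖s • x + Real.sqrt s • g‖ ≤ |s| * ‖x‖ + Real.sqrt s * ‖g‖ := by
    refine (norm_add_le _ _).trans ?_
    rw [norm_smul, norm_smul, Real.norm_eq_abs, Real.norm_eq_abs,
      abs_of_nonneg (Real.sqrt_nonneg s)]
  have h2 := mul_le_mul_of_nonneg_left h1 hB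
  linarith

theorem BAY_int_in {F : E → ℝ} (hF : GC F) (s : ℝ) (x : E) :
    Integrable (fun g : E => F (s • x + Real.sqrt s • g)) (mu (gp (E := E))) := by
  obtain ⟨t, C, h⟩ := BAY_gpot (E := E)
  exact (BAY_gc_in hF s x).integrable h

theorem BAY_gc {F : E → ℝ} (hF : GC F) (s : ℝ) :
    GC (fun x : E => ∫ g, F (s • x + Real.sqrt s • g) ∂(mu (gp (E := E)))) := by
  obtain ⟨A, B, hA, hB, hAB⟩ := Gr.norm hF.2
  obtain ⟨t, C, hg⟩ := BAY_gpot (E := E)
  have hprob := BAY_gprob (E := E)
  have hexp : Integrable (fun g : E => Real.exp (B * Real.sqrt s * ‖g‖)) (mu (gp (E := E))) :=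
    (fb_gc_exp (B * Real.sqrt s)).integrable hg
  have hbd : ∀ x g : E, |F (s • x + Real.sqrt s • g)| ≤
      A * Real.exp (B * |s| * ‖x‖) * Real.exp (B * Real.sqrt s * ‖g‖) := by
    intro x g
    refine (hAB _).trans ?_
    rw [mul_assoc, ← Real.exp_add]
    apply mul_le_mul_of_nonneg_left _ hA
    apply Real.exp_le_exp.2
    have h1 : ‖s • x + Real.sqrt s • g‖ ≤ |s| * ‖x‖ + Real.sqrt s * ‖g‖ := by
      refine (norm_add_le _ _).trans ?_
      rw [norm_smul, norm_smul, Real.norm_eq_abs, Real.norm_eq_abs,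
        abs_of_nonneg (Real.sqrt_nonneg s)]
    have h2 := mul_le_mul_of_nonneg_left h1 hB
    linarith
  constructor
  · rw [continuous_iff_continuousAt]
    intro x₀
    apply continuousAt_of_dominated (bound := fun g : E =>
      A * Real.exp (B * |s| * (‖x₀‖ + 1)) * Real.exp (B * Real.sqrt s * ‖g‖))
    · exact Eventually.of_forall fun x => (BAY_gc_in hF s x).1.aestronglyMeasurable
    · filter_upwards [Metric.ball_mem_nhds x₀ one_pos] with x hx
      refine Eventually.of_forall fun g => ?_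
      rw [Real.norm_eq_abs]
      refine (hbd x g).trans ?_
      apply mul_le_mul_of_nonneg_right _ (Real.exp_pos _).le
      apply mul_le_mul_of_nonneg_left _ hA
      apply Real.exp_le_exp.2
      apply mul_le_mul_of_nonneg_left _ (by positivity)
      have h1 : ‖x - x₀‖ < 1 := by rwa [Metric.mem_ball, dist_eq_norm] at hx
      have h2 : ‖x‖ ≤ ‖x₀‖ + ‖x - x₀‖ := by
        have : x = x₀ + (x - x₀) := by abel
        calc ‖x‖ = ‖x₀ + (x - x₀)‖ := by rw [← this]
          _ ≤ _ := norm_add_le _ _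
      linarith
    · exact hexp.const_mul _
    · refine Eventually.of_forall fun g => ?_
      have : Continuous fun x : E => F (s • x + Real.sqrt s • g) := hF.1.comp (by fun_prop)
      exact this.continuousAt
  · refine ⟨A * ∫ g, Real.exp (B * Real.sqrt s * ‖g‖) ∂(mu (gp (E := E))), B * |s|, fun x => ?_⟩
    have h1 : |∫ g, F (s • x + Real.sqrt s • g) ∂(mu (gp (E := E)))| ≤
        ∫ g, A * Real.exp (B * |s| * ‖x‖) * Real.exp (B * Real.sqrt s * ‖g‖)
          ∂(mu (gp (E := E))) := by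
      rw [← Real.norm_eq_abs]
      apply norm_integral_le_of_norm_le (hexp.const_mul _)
      refine Eventually.of_forall fun g => ?_
      rw [Real.norm_eq_abs]
      exact hbd x g
    rw [integral_const_mul] at h1
    refine h1.trans (le_of_eq ?_)
    ring

/-- the law of `s x + √s g` -/
theorem BAY_inner {s : ℝ} (hs : 0 < s) (F : E → ℝ) (x : E) :
    ∫ g, F (s • x + Real.sqrt s • g) ∂(mu (gp (E := E))) =
      av (fun _ => (0:ℝ)) s (fun y => F (s • y)) x := by
  have hg1 : 0 < gs E 1 := gs_pos one_pos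
  have hgs : 0 < gs E s := gs_pos hs
  have hr : 0 < Real.sqrt s := Real.sqrt_pos.2 hs
  have e0 : ∫ g, F (s • x + Real.sqrt s • g) ∂(mu (gp (E := E))) =
      (gs E 1)⁻¹ * ∫ g : E, F (s • x + Real.sqrt s • g) * Real.exp (-(‖g‖ ^ 2 / 2)) := by
    obtain ⟨t, C, hg⟩ := BAY_gpot (E := E)
    rw [integral_mu hg.smooth.continuous, ← integral_const_mul]
    congr 1
    ext g
    unfold gp
    rw [neg_add, Real.exp_add, Real.exp_neg (Real.log _), Real.exp_log hg1]
    ring
  have e1 : ∫ y : E, F (s • y) * Real.exp (-pt (fun _ => (0:ℝ)) s x y) =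
      ∫ z : E, F (s • (z + x)) * Real.exp (-(s * ‖z‖ ^ 2 / 2)) := by
    rw [← integral_add_right_eq_self (fun y : E => F (s • y) * Real.exp (-pt (fun _ => (0:ℝ)) s x y)) x]
    congr 1
    ext z
    unfold pt
    rw [add_sub_cancel_right, zero_add]
  have e2 : ∫ z : E, F (s • (z + x)) * Real.exp (-(s * ‖z‖ ^ 2 / 2)) =
      ((Real.sqrt s) ^ (Module.finrank ℝ E))⁻¹ *
        ∫ g : E, F (s • x + Real.sqrt s • g) * Real.exp (-(‖g‖ ^ 2 / 2)) := by
    have h := Measure.integral_comp_smul (volume : Measure E)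
      (fun g : E => F (s • x + Real.sqrt s • g) * Real.exp (-(‖g‖ ^ 2 / 2))) (Real.sqrt s)
    rw [smul_eq_mul, abs_of_pos (by positivity)] at h
    rw [← h]
    congr 1
    ext z
    rw [smul_smul, Real.mul_self_sqrt hs.le, norm_smul, Real.norm_eq_abs, abs_of_pos hr, mul_pow,
      Real.sq_sqrt hs.le, smul_add, add_comm (s • z)]
  have e3 : av (fun _ => (0:ℝ)) s (fun y => F (s • y)) x =
      (gs E s)⁻¹ * ∫ y : E, F (s • y) * Real.exp (-pt (fun _ => (0:ℝ)) s x y) := by
    unfold av NI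
    have : ∫ y : E, (1:ℝ) * Real.exp (-pt (fun _ => (0:ℝ)) s x y) = gs E s := by
      rw [← fb_noise' s x]
      congr 1
      ext y
      unfold pt
      rw [one_mul, zero_add]
    rw [this, div_eq_inv_mul]
  rw [e0, e3, e1, e2, fb_gs hs, mul_inv, inv_inv]
  have hp : (Real.sqrt s) ^ (Module.finrank ℝ E) ≠ 0 := by positivity
  field_simp

theorem BAY_ZF (U : E → ℝ) (s : ℝ) (y : E) (h : E → ℝ) :
    ZF U s (s • y) h = Real.exp (s * ‖y‖ ^ 2 / 2) * NI U s h y := by
  unfold ZF NI
  rw [← integral_const_mul]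
  congr 1
  ext x
  rw [mul_left_comm, ← Real.exp_add]
  congr 2
  unfold tp pt
  rw [norm_sub_sq_real, real_inner_smul_left, real_inner_comm x y]
  ring

theorem BAY_pm (U : E → ℝ) (s : ℝ) (y : E) (h : E → ℝ) :
    pm U s (s • y) h = av U s h y := by
  unfold pm av
  rw [BAY_ZF, BAY_ZF, mul_div_mul_left _ _ (Real.exp_pos _).ne']

theorem BAY_swap {U : E → ℝ} {t C : ℝ} (hU : Pot U t C) {s : ℝ} (hs : 0 < s) {G h : E → ℝ}
    (hG : GC G) (hh : GC h) :
    ∫ x, h x * av (fun _ => (0:ℝ)) s G x ∂(mu U) = (gs E s)⁻¹ * ∫ y, G y * NI U s h y := by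
  obtain ⟨A, B, hA0, hB0, hAB⟩ := Gr.norm hG.2
  obtain ⟨A', B', hA0', hB0', hAB'⟩ := Gr.norm hh.2
  have hg : 0 < gs E s := gs_pos hs
  rw [integral_mu hU.smooth.continuous]
  have i1 : Integrable (fun p : E × E => (h p.1 * G p.2) * Real.exp (-pt U s p.2 p.1))
      ((volume : Measure E).prod volume) := by
    refine fb_int_prod hU hs (Φ := fun p => h p.1 * G p.2)
      ((hh.1.comp continuous_fst).mul (hG.1.comp continuous_snd)) (A := A' * A) (B := B' + B) ?_
    intro p
    rw [abs_mul]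
    refine (mul_le_mul (hAB' p.1) (hAB p.2) (abs_nonneg _) (by positivity)).trans ?_
    have e : A' * Real.exp (B' * ‖p.1‖) * (A * Real.exp (B * ‖p.2‖)) =
        A' * A * Real.exp (B' * ‖p.1‖ + B * ‖p.2‖) := by rw [Real.exp_add]; ring
    rw [e]
    apply mul_le_mul_of_nonneg_left _ (by positivity)
    apply Real.exp_le_exp.2
    have := norm_nonneg p.1
    have := norm_nonneg p.2
    nlinarith [mul_nonneg hB0' (norm_nonneg p.2), mul_nonneg hB0 (norm_nonneg p.1)]
  have i2 := integral_integral_swap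
    (f := fun x y : E => (h x * G y) * Real.exp (-pt U s y x)) i1
  have e1 : ∫ y, G y * NI U s h y =
      ∫ y : E, ∫ x : E, (h x * G y) * Real.exp (-pt U s y x) := by
    congr 1
    ext y
    unfold NI
    rw [← integral_const_mul]
    congr 1
    ext x
    ring
  rw [e1, ← i2, ← integral_const_mul]
  congr 1
  ext x
  have e2 : av (fun _ : E => (0:ℝ)) s G x =
      (gs E s)⁻¹ * ∫ y : E, G y * Real.exp (-(s * ‖y - x‖ ^ 2 / 2)) := by
    unfold av NI pt
    simp only [one_mul, zero_add]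
    rw [fb_noise']
    field_simp
  rw [e2]
  have e3 : ∫ y : E, (h x * G y) * Real.exp (-pt U s y x) =
      h x * Real.exp (-U x) * ∫ y : E, G y * Real.exp (-(s * ‖y - x‖ ^ 2 / 2)) := by
    rw [← integral_const_mul]
    congr 1
    ext y
    unfold pt
    rw [neg_add, Real.exp_add, norm_sub_rev y x]
    ring
  rw [e3]
  ring

end BAYsec

theorem bay_thm (E : Type) [NormedAddCommGroup E] [InnerProductSpace ℝ E]
    [FiniteDimensional ℝ E] [MeasurableSpace E] [BorelSpace E]
    (hPWB : PWBStmt E) (hPMG : PMGStmt E) (hRGP : RGPStmt E) : BAYStmt E := by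
  intro U t hPP s hs
  obtain ⟨⟨C, hU⟩, hprobU⟩ := id hPP
  have hγ := BAY_gprob (E := E)
  have hpmGC : ∀ h : E → ℝ, GC h → GC (fun θ : E => pm U s θ h) := by
    intro h hh
    constructor
    · have h1 := (hRGP U t hPP h hh).1.cont
      have h2 : ContinuousOn (fun θ : E => ((s, θ) : ℝ × E)) univ := by fun_prop
      have h3 := h1.comp h2 (fun θ _ => ⟨hs, mem_univ _⟩)
      exact continuousOn_univ.1 h3
    · obtain ⟨A, B, hAB⟩ := hPMG U t hPP h hh s
      exact ⟨A, B, fun θ => hAB s ⟨hs, le_refl s⟩ θ⟩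
  have hadd : ∀ F G : E → ℝ, GC F → GC G →
      EX U s (fun θ => F θ + G θ) = EX U s F + EX U s G := by
    intro F G hF hG
    unfold EX
    rw [← integral_add ((BAY_gc hF s).integrable hU) ((BAY_gc hG s).integrable hU)]
    congr 1
    ext x
    exact integral_add (BAY_int_in hF s x) (BAY_int_in hG s x)
  have hconst : ∀ c : ℝ, EX U s (fun _ => c) = c := by
    intro c
    unfold EX
    simp
  have h6 : ∀ F h : E → ℝ, GC F → GC h →
      ∫ x, h x * (∫ g, F (s • x + Real.sqrt s • g) ∂(mu (gp (E := E)))) ∂(mu U) =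
        EX U s (fun θ => F θ * pm U s θ h) := by
    intro F h hF hh
    rcases hs.eq_or_lt with rfl | hs0
    · unfold EX
      simp only [Real.sqrt_zero, zero_smul, add_zero, integral_const, probReal_univ, smul_eq_mul,
        one_mul]
      have e1 : pm U 0 0 h = ∫ x, h x ∂(mu U) := by
        rw [← (hPWB U t hPP).2.1 0 0 le_rfl h, (hPWB U t hPP).2.2]
      rw [e1, integral_mul_const]
      ring
    · have hadm : Adm U s := adm_of_pot hU hs0
      have hs' : ∀ F : E → ℝ, GC F → GC (fun y : E => F (s • y)) := by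
        intro F hF
        obtain ⟨A, B, hA, hB, hAB⟩ := Gr.norm hF.2
        refine ⟨hF.1.comp (by fun_prop), A, B * s, fun y => ?_⟩
        refine (hAB _).trans (le_of_eq ?_)
        rw [norm_smul, Real.norm_eq_abs, abs_of_pos hs0]
        ring_nf
      have e1 : ∀ x : E, ∫ g, F (s • x + Real.sqrt s • g) ∂(mu (gp (E := E))) =
          av (fun _ => (0:ℝ)) s (fun y => F (s • y)) x := fun x => BAY_inner hs0 F x
      have e2 : EX U s (fun θ => F θ * pm U s θ h) =
          ∫ x, (1:ℝ) * av (fun _ => (0:ℝ)) s (fun y => F (s • y) * pm U s (s • y) h) x ∂(mu U) := by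
        unfold EX
        congr 1
        ext x
        rw [one_mul]
        exact BAY_inner hs0 (fun θ => F θ * pm U s θ h) x
      rw [e2]
      simp only [e1]
      rw [BAY_swap hU hs0 (hs' F hF) hh,
        BAY_swap hU hs0 (hs' _ (hF.mul (hpmGC h hh))) (GC.const 1)]
      congr 1
      congr 1
      ext y
      rw [BAY_pm]
      unfold av
      have := (NI_one_pos hadm y).ne'
      field_simp
  refine ⟨fun F hF => BAY_gc hF s, hadd, ?_, hconst, ?_, h6, ?_⟩
  · intro c F
    unfold EX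
    rw [← integral_const_mul]
    congr 1
    ext x
    exact integral_const_mul _ _
  · intro F G hF hG hFG
    unfold EX
    refine integral_mono ((BAY_gc hF s).integrable hU) ((BAY_gc hG s).integrable hU) fun x => ?_
    exact integral_mono (BAY_int_in hF s x) (BAY_int_in hG s x) fun g => hFG _
  · intro h hh
    have := h6 (fun _ => 1) h (GC.const 1) hh
    simp only [one_mul] at this
    rw [← this]
    simp

end Pool.Agent.H73.KG
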