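import Pool.Agent.H73.KG.Stmts

/-! Module FPI of project KG. -/

set_option autoImplicit false

open MeasureTheory Set Filter Topology Matrix

namespace Pool.Agent.H73.KG

section FPIsec

variable {ι : Type} [Fintype ι] [DecidableEq ι]

theorem FPI_diag (A : Matrix ι ι ℝ) (hA : A.PosSemidef) :
    ∃ (O : Matrix ι ι ℝ) (lam : ι → ℝ), O * Oᵀ = 1 ∧ Oᵀ * O = 1 ∧
      A = O * Matrix.diagonal lam * Oᵀ ∧ ∀ i, 0 ≤ lam i := by
  have hH := hA.isHermitian
  refine ⟨(hH.eigenvectorUnitary : Matrix ι ι ℝ), hH.eigenvalues, ?_, ?_, ?_, hA.eigenvalues_nonneg⟩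
  · have := (Matrix.mem_unitaryGroup_iff (A := (hH.eigenvectorUnitary : Matrix ι ι ℝ))).1
      hH.eigenvectorUnitary.2
    rwa [Matrix.star_eq_conjTranspose, Matrix.conjTranspose_eq_transpose_of_trivial] at this
  · have := (Matrix.mem_unitaryGroup_iff' (A := (hH.eigenvectorUnitary : Matrix ι ι ℝ))).1
      hH.eigenvectorUnitary.2
    rwa [Matrix.star_eq_conjTranspose, Matrix.conjTranspose_eq_transpose_of_trivial] at this
  · have h := hH.spectral_theorem
    rw [Unitary.conjStarAlgAut_apply] at h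
    rw [Matrix.star_eq_conjTranspose, Matrix.conjTranspose_eq_transpose_of_trivial] at h
    exact h

theorem FPI_pow (O M : Matrix ι ι ℝ) (h1 : O * Oᵀ = 1) (h2 : Oᵀ * O = 1) (p : ℕ) :
    (O * M * Oᵀ) ^ p = O * M ^ p * Oᵀ := by
  induction p with
  | zero => simp [h1]
  | succ p ih =>
    rw [pow_succ, ih, pow_succ]
    calc O * M ^ p * Oᵀ * (O * M * Oᵀ) = O * M ^ p * (Oᵀ * O) * M * Oᵀ := by
          simp only [Matrix.mul_assoc]
      _ = _ := by rw [h2, Matrix.mul_one]; simp only [Matrix.mul_assoc]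

theorem FPI_tr (O M : Matrix ι ι ℝ) (h2 : Oᵀ * O = 1) :
    (O * M * Oᵀ).trace = M.trace := by
  rw [Matrix.trace_mul_comm, ← Matrix.mul_assoc, h2, Matrix.one_mul]

/-- the function `φ` -/
noncomputable def FPI_ph (p : ℕ) (l : ℝ) : ℝ := l * (l / (1 + l)) ^ p

theorem FPI_FP (O : Matrix ι ι ℝ) (lam : ι → ℝ) (h1 : O * Oᵀ = 1) (h2 : Oᵀ * O = 1)
    (h0 : ∀ i, 0 ≤ lam i) (p : ℕ) :
    FP p (O * Matrix.diagonal lam * Oᵀ) = ∑ i, FPI_ph p (lam i) := by
  have e1 : (1 + O * Matrix.diagonal lam * Oᵀ)⁻¹ =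
      O * Matrix.diagonal (fun i => (1 + lam i)⁻¹) * Oᵀ := by
    apply Matrix.inv_eq_right_inv
    have e2 : (1 + O * Matrix.diagonal lam * Oᵀ) =
        O * Matrix.diagonal (fun i => 1 + lam i) * Oᵀ := by
      have : Matrix.diagonal (fun i => 1 + lam i) = 1 + Matrix.diagonal lam := by
        rw [← Matrix.diagonal_one, Matrix.diagonal_add]
      rw [this, Matrix.mul_add, Matrix.add_mul, Matrix.mul_one, h1]
    rw [e2]
    calc O * Matrix.diagonal (fun i => 1 + lam i) * Oᵀ *
          (O * Matrix.diagonal (fun i => (1 + lam i)⁻¹) * Oᵀ) =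
          O * (Matrix.diagonal (fun i => 1 + lam i) * (Oᵀ * O) *
            Matrix.diagonal (fun i => (1 + lam i)⁻¹)) * Oᵀ := by
          simp only [Matrix.mul_assoc]
      _ = 1 := by
          rw [h2, Matrix.mul_one, Matrix.diagonal_mul_diagonal]
          have : (fun i => (1 + lam i) * (1 + lam i)⁻¹) = fun _ => (1:ℝ) := by
            funext i
            have := h0 i
            field_simp
          rw [this, Matrix.diagonal_one, Matrix.mul_one, h1]
  have e3 : O * Matrix.diagonal lam * Oᵀ * (1 + O * Matrix.diagonal lam * Oᵀ)⁻¹ =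
      O * Matrix.diagonal (fun i => lam i / (1 + lam i)) * Oᵀ := by
    rw [e1]
    calc O * Matrix.diagonal lam * Oᵀ * (O * Matrix.diagonal (fun i => (1 + lam i)⁻¹) * Oᵀ) =
          O * (Matrix.diagonal lam * (Oᵀ * O) * Matrix.diagonal (fun i => (1 + lam i)⁻¹)) * Oᵀ := by
          simp only [Matrix.mul_assoc]
      _ = _ := by
          rw [h2, Matrix.mul_one, Matrix.diagonal_mul_diagonal]
          rfl
  unfold FP
  rw [e3, FPI_pow O _ h1 h2]
  calc (O * Matrix.diagonal lam * Oᵀ *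
        (O * (Matrix.diagonal (fun i => lam i / (1 + lam i))) ^ p * Oᵀ)).trace =
        (O * (Matrix.diagonal lam * (Oᵀ * O) *
          (Matrix.diagonal (fun i => lam i / (1 + lam i))) ^ p) * Oᵀ).trace := by
        simp only [Matrix.mul_assoc]
    _ = _ := by
        rw [h2, Matrix.mul_one, FPI_tr O _ h2, Matrix.diagonal_pow, Matrix.diagonal_mul_diagonal,
          Matrix.trace_diagonal]
        rfl

omit [DecidableEq ι] in
theorem FPI_conj_psd (O M : Matrix ι ι ℝ) (hM : M.PosSemidef) :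
    (Oᵀ * M * O).PosSemidef := by
  have := hM.conjTranspose_mul_mul_same O
  rwa [Matrix.conjTranspose_eq_transpose_of_trivial] at this

theorem FPI_le (O : Matrix ι ι ℝ) (lam : ι → ℝ) (h2 : Oᵀ * O = 1)
    (c : ℝ) (hc : (c • (1 : Matrix ι ι ℝ) - O * Matrix.diagonal lam * Oᵀ).PosSemidef) (i : ι) :
    lam i ≤ c := by
  have h := (FPI_conj_psd O _ hc).diag_nonneg (i := i)
  have e : Oᵀ * (c • (1 : Matrix ι ι ℝ) - O * Matrix.diagonal lam * Oᵀ) * O =
      c • (1 : Matrix ι ι ℝ) - Matrix.diagonal lam := by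
    rw [Matrix.mul_sub, Matrix.sub_mul]
    congr 1
    · rw [Matrix.mul_smul, Matrix.smul_mul, Matrix.mul_one, h2]
    · calc Oᵀ * (O * Matrix.diagonal lam * Oᵀ) * O = (Oᵀ * O) * Matrix.diagonal lam * (Oᵀ * O) := by
            simp only [Matrix.mul_assoc]
        _ = _ := by rw [h2, Matrix.one_mul, Matrix.mul_one]
  rw [e] at h
  simpa using h

theorem FPI_psd (O : Matrix ι ι ℝ) (lam : ι → ℝ) (h1 : O * Oᵀ = 1)
    (c : ℝ) (hc : ∀ i, lam i ≤ c) :
    (c • (1 : Matrix ι ι ℝ) - O * Matrix.diagonal lam * Oᵀ).PosSemidef := by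
  have e : c • (1 : Matrix ι ι ℝ) - O * Matrix.diagonal lam * Oᵀ =
      O * Matrix.diagonal (fun i => c - lam i) * Oᵀ := by
    have : Matrix.diagonal (fun i => c - lam i) = c • (1 : Matrix ι ι ℝ) - Matrix.diagonal lam := by
      ext i j
      by_cases hij : i = j
      · subst hij; simp
      · simp [hij]
    rw [this, Matrix.mul_sub, Matrix.sub_mul, Matrix.mul_smul, Matrix.smul_mul, Matrix.mul_one, h1]
  rw [e]
  have h := (Matrix.PosSemidef.diagonal (d := fun i => c - lam i)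
    (fun i => by simpa using hc i)).mul_mul_conjTranspose_same O
  rwa [Matrix.conjTranspose_eq_transpose_of_trivial] at h

theorem FPI_ph_nonneg (p : ℕ) {l : ℝ} (hl : 0 ≤ l) : 0 ≤ FPI_ph p l := by
  unfold FPI_ph
  positivity

theorem FPI_ratio_mono {l c : ℝ} (hl : 0 ≤ l) (hlc : l ≤ c) : l / (1 + l) ≤ c / (1 + c) := by
  rw [div_le_div_iff₀ (by linarith) (by linarith)]
  nlinarith

theorem FPI_ph_mono (p : ℕ) {l c : ℝ} (hl : 0 ≤ l) (hlc : l ≤ c) : FPI_ph p l ≤ FPI_ph p c := by
  unfold FPI_ph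
  have := FPI_ratio_mono hl hlc
  have h0 : 0 ≤ l / (1 + l) := by positivity
  exact mul_le_mul hlc (pow_le_pow_left₀ h0 this p) (by positivity) (by linarith)

theorem FPI_ph_le_self (p : ℕ) {l : ℝ} (hl : 0 ≤ l) : FPI_ph p l ≤ l := by
  unfold FPI_ph
  have h0 : 0 ≤ l / (1 + l) := by positivity
  have h1 : l / (1 + l) ≤ 1 := by
    rw [div_le_one (by linarith)]; linarith
  have := pow_le_one₀ (n := p) h0 h1
  nlinarith

theorem FPI_hs (O M : Matrix ι ι ℝ) (h1 : O * Oᵀ = 1) :
    ∑ i, ∑ j, ((Oᵀ * M * O) i j) ^ 2 = ∑ i, ∑ j, (M i j) ^ 2 := by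
  have key : ∀ N : Matrix ι ι ℝ, ∑ i, ∑ j, (N i j) ^ 2 = (N * Nᵀ).trace := by
    intro N
    simp only [Matrix.trace, Matrix.diag, Matrix.mul_apply, Matrix.transpose_apply, sq]
  rw [key, key]
  have e : Oᵀ * M * O * (Oᵀ * M * O)ᵀ = Oᵀ * (M * Mᵀ) * Oᵀᵀ := by
    rw [Matrix.transpose_mul, Matrix.transpose_mul, Matrix.transpose_transpose]
    calc Oᵀ * M * O * (Oᵀ * (Mᵀ * O)) = Oᵀ * M * (O * Oᵀ) * Mᵀ * O := by
          simp only [Matrix.mul_assoc]
      _ = _ := by rw [h1, Matrix.mul_one]; simp only [Matrix.mul_assoc]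
  rw [e]
  exact FPI_tr Oᵀ _ (by rw [Matrix.transpose_transpose]; exact h1)

end FPIsec

theorem fpi_thm : FPIStmt := by
  intro ι _ _ A hA p hp
  obtain ⟨O, lam, h1, h2, hAe, h0⟩ := FPI_diag A hA
  subst hAe
  have hFP := FPI_FP O lam h1 h2 h0 p
  have hpos : 0 ≤ FP p (O * Matrix.diagonal lam * Oᵀ) := by
    rw [hFP]
    exact Finset.sum_nonneg fun i _ => FPI_ph_nonneg p (h0 i)
  refine ⟨hpos, ?_, ?_, ?_, ?_⟩
  · intro R B hR hAR hB hB5
    have hlR := FPI_le O lam h2 R hAR
    have hkey : ∀ i, FPI_ph p (lam i) ≤ 7 * (7 / 8) ^ p +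
        R / 4 * ((Oᵀ * (O * Matrix.diagonal lam * Oᵀ - B) * O) i i) ^ 2 := by
      intro i
      rcases le_or_gt (lam i) 7 with h7 | h7
      · have h := FPI_ph_mono p (h0 i) h7
        have e : FPI_ph p 7 = 7 * (7 / 8) ^ p := by unfold FPI_ph; norm_num
        rw [e] at h
        have : 0 ≤ R / 4 * ((Oᵀ * (O * Matrix.diagonal lam * Oᵀ - B) * O) i i) ^ 2 := by positivity
        linarith
      · have hb := (FPI_conj_psd O _ hB5).diag_nonneg (i := i)
        have e1 : Oᵀ * ((5:ℝ) • (1 : Matrix ι ι ℝ) - B) * O =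
            (5:ℝ) • (1 : Matrix ι ι ℝ) - Oᵀ * B * O := by
          rw [Matrix.mul_sub, Matrix.sub_mul]
          congr 1
          rw [Matrix.mul_smul, Matrix.smul_mul, Matrix.mul_one, h2]
        rw [e1] at hb
        have hb' : (Oᵀ * B * O) i i ≤ 5 := by simpa using hb
        have e2 : Oᵀ * (O * Matrix.diagonal lam * Oᵀ - B) * O =
            Matrix.diagonal lam - Oᵀ * B * O := by
          rw [Matrix.mul_sub, Matrix.sub_mul]
          congr 1
          calc Oᵀ * (O * Matrix.diagonal lam * Oᵀ) * O =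
                (Oᵀ * O) * Matrix.diagonal lam * (Oᵀ * O) := by simp only [Matrix.mul_assoc]
            _ = _ := by rw [h2, Matrix.one_mul, Matrix.mul_one]
        rw [e2]
        have e3 : (Matrix.diagonal lam - Oᵀ * B * O) i i = lam i - (Oᵀ * B * O) i i := by simp
        rw [e3]
        have h2' : 2 ≤ lam i - (Oᵀ * B * O) i i := by linarith
        have h4 : (4:ℝ) ≤ (lam i - (Oᵀ * B * O) i i) ^ 2 := by nlinarith
        have h5 := FPI_ph_le_self p (h0 i)
        have h6 := hlR i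
        have h7' : R ≤ R / 4 * (lam i - (Oᵀ * B * O) i i) ^ 2 := by nlinarith
        have h8 : (0:ℝ) ≤ 7 * (7 / 8) ^ p := by positivity
        linarith
    rw [hFP]
    calc ∑ i, FPI_ph p (lam i) ≤ ∑ i, (7 * (7 / 8) ^ p +
          R / 4 * ((Oᵀ * (O * Matrix.diagonal lam * Oᵀ - B) * O) i i) ^ 2) :=
          Finset.sum_le_sum fun i _ => hkey i
      _ = 7 * (7 / 8) ^ p * Fintype.card ι + R / 4 *
          ∑ i, ((Oᵀ * (O * Matrix.diagonal lam * Oᵀ - B) * O) i i) ^ 2 := by
          rw [Finset.sum_add_distrib, Finset.sum_const, Finset.mul_sum]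
          simp [mul_comm]
      _ ≤ _ := by
          have h3 : ∑ i, ((Oᵀ * (O * Matrix.diagonal lam * Oᵀ - B) * O) i i) ^ 2 ≤
              ∑ i, ∑ j, ((O * Matrix.diagonal lam * Oᵀ) i j - B i j) ^ 2 := by
            have h4 := FPI_hs O (O * Matrix.diagonal lam * Oᵀ - B) h1
            simp only [Matrix.sub_apply] at h4
            rw [← h4]
            refine Finset.sum_le_sum fun i _ => ?_
            exact Finset.single_le_sum
              (f := fun j => ((Oᵀ * (O * Matrix.diagonal lam * Oᵀ - B) * O) i j) ^ 2)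
              (fun j _ => sq_nonneg _) (Finset.mem_univ i)
          have : R / 4 * ∑ i, ((Oᵀ * (O * Matrix.diagonal lam * Oᵀ - B) * O) i i) ^ 2 ≤
              R / 4 * ∑ i, ∑ j, ((O * Matrix.diagonal lam * Oᵀ) i j - B i j) ^ 2 :=
            mul_le_mul_of_nonneg_left h3 (by positivity)
          linarith
  · intro c hc0 hc
    have hl := FPI_le O lam h2 c hc
    rw [hFP]
    calc ∑ i, FPI_ph p (lam i) ≤ ∑ _i : ι, FPI_ph p c :=
          Finset.sum_le_sum fun i _ => FPI_ph_mono p (h0 i) (hl i)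
      _ = _ := by
          rw [Finset.sum_const]
          unfold FPI_ph
          simp [mul_comm]
  · intro R hR hAR
    have hlR := FPI_le O lam h2 R hAR
    have e : ((O * Matrix.diagonal lam * Oᵀ) ^ 3).trace = ∑ i, (lam i) ^ 3 := by
      rw [FPI_pow O _ h1 h2, FPI_tr O _ h2, Matrix.diagonal_pow, Matrix.trace_diagonal]
      rfl
    rw [e, hFP]
    have hkey : ∀ i, (lam i) ^ 3 ≤ 35 ^ 3 + R ^ 2 * (36 / 35) ^ p * FPI_ph p (lam i) := by
      intro i
      have hl0 := h0 i
      rcases le_or_gt (lam i) 35 with h35 | h35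
      · have h3 : (lam i) ^ 3 ≤ 35 ^ 3 := pow_le_pow_left₀ hl0 h35 3
        have : 0 ≤ R ^ 2 * (36 / 35) ^ p * FPI_ph p (lam i) := by
          have := FPI_ph_nonneg p hl0
          positivity
        linarith
      · have h36 : (35:ℝ) / 36 ≤ lam i / (1 + lam i) := by
          have := FPI_ratio_mono (l := 35) (c := lam i) (by norm_num) h35.le
          norm_num at this ⊢
          exact this
        have hp1 : (1:ℝ) ≤ (36 / 35) ^ p * (lam i / (1 + lam i)) ^ p := by
          rw [← mul_pow]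
          apply one_le_pow₀
          have : (36:ℝ) / 35 * (35 / 36) ≤ 36 / 35 * (lam i / (1 + lam i)) :=
            mul_le_mul_of_nonneg_left h36 (by norm_num)
          norm_num at this ⊢
          exact this
        have hR2 : (lam i) ^ 2 ≤ R ^ 2 := pow_le_pow_left₀ hl0 (hlR i) 2
        have hfin : (lam i) ^ 3 ≤ R ^ 2 * (36 / 35) ^ p * FPI_ph p (lam i) := by
          calc (lam i) ^ 3 = (lam i) ^ 2 * lam i * 1 := by ring
            _ ≤ R ^ 2 * lam i * ((36 / 35) ^ p * (lam i / (1 + lam i)) ^ p) := by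
                apply mul_le_mul _ hp1 (by norm_num) (by positivity)
                exact mul_le_mul_of_nonneg_right hR2 hl0
            _ = _ := by unfold FPI_ph; ring
        have : (0:ℝ) ≤ 35 ^ 3 := by norm_num
        linarith
    calc ∑ i, (lam i) ^ 3 ≤ ∑ i, (35 ^ 3 + R ^ 2 * (36 / 35) ^ p * FPI_ph p (lam i)) :=
          Finset.sum_le_sum fun i _ => hkey i
      _ = _ := by
          rw [Finset.sum_add_distrib, Finset.sum_const, Finset.mul_sum]
          simp [mul_comm]
  · apply FPI_psd O lam h1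
    intro i
    rcases le_or_gt (lam i) 3 with h3 | h3
    · have : 0 ≤ (4 / 3 : ℝ) ^ p * FP p (O * Matrix.diagonal lam * Oᵀ) := by positivity
      linarith
    · have hl0 := h0 i
      have h34 : (3:ℝ) / 4 ≤ lam i / (1 + lam i) := by
        have := FPI_ratio_mono (l := 3) (c := lam i) (by norm_num) h3.le
        norm_num at this ⊢
        exact this
      have hp1 : (1:ℝ) ≤ (4 / 3) ^ p * (lam i / (1 + lam i)) ^ p := by
        rw [← mul_pow]
        apply one_le_pow₀
        have : (4:ℝ) / 3 * (3 / 4) ≤ 4 / 3 * (lam i / (1 + lam i)) :=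
          mul_le_mul_of_nonneg_left h34 (by norm_num)
        norm_num at this ⊢
        exact this
      have h4 : FPI_ph p (lam i) ≤ FP p (O * Matrix.diagonal lam * Oᵀ) := by
        rw [hFP]
        exact Finset.single_le_sum (f := fun i => FPI_ph p (lam i))
          (fun j _ => FPI_ph_nonneg p (h0 j)) (Finset.mem_univ i)
      have h5 : lam i ≤ (4 / 3) ^ p * FPI_ph p (lam i) := by
        unfold FPI_ph
        calc lam i = lam i * 1 := (mul_one _).symm
          _ ≤ lam i * ((4 / 3) ^ p * (lam i / (1 + lam i)) ^ p) :=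
              mul_le_mul_of_nonneg_left hp1 hl0
          _ = _ := by ring
      have h6 : (4 / 3 : ℝ) ^ p * FPI_ph p (lam i) ≤ (4 / 3) ^ p *
          FP p (O * Matrix.diagonal lam * Oᵀ) := mul_le_mul_of_nonneg_left h4 (by positivity)
      linarith

end Pool.Agent.H73.KG
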