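import Pool.Agent.H73.KG.Stmts
import Pool.Agent.H27.KL.FB

/-! Module HBB of project KG: the `H^{-1}` bound. -/

set_option autoImplicit false

open MeasureTheory Set Filter Topology

namespace Pool.Agent.H73.KG

open Pool.Agent.H84 Pool.Agent.H84.Sym Pool.Agent.H84.Sym.P2x Pool.Agent.H84.Sym.C29
open Pool.Agent.H19.KL
open scoped ContDiff

section HBBsec

variable {E : Type} [NormedAddCommGroup E] [InnerProductSpace ℝ E]
    [FiniteDimensional ℝ E] [MeasurableSpace E] [BorelSpace E]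

omit [FiniteDimensional ℝ E] [MeasurableSpace E] [BorelSpace E] in
theorem HBB_gc_li (e : E) : GC (li e) := by
  refine ⟨?_, ‖e‖, 1, fun x => ?_⟩
  · unfold li; fun_prop
  · unfold li
    refine (abs_real_inner_le_norm e x).trans ?_
    apply mul_le_mul_of_nonneg_left _ (norm_nonneg e)
    have := Real.add_one_le_exp (1 * ‖x‖)
    linarith

omit [InnerProductSpace ℝ E] [FiniteDimensional ℝ E] [MeasurableSpace E] [BorelSpace E] in
theorem HBB_gc_sum {κ : Type} (J : Finset κ) (F : κ → E → ℝ) (h : ∀ k ∈ J, GC (F k)) :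
    GC (fun x => ∑ k ∈ J, F k x) := by
  classical
  induction J using Finset.induction_on with
  | empty => simpa using GC.const (H := E) 0
  | insert a s ha ih =>
    simp only [Finset.sum_insert ha]
    exact (h a (Finset.mem_insert_self a s)).add
      (ih fun k hk => h k (Finset.mem_insert_of_mem hk))

/-- finite sums of regular functions -/
theorem HBB_rg_sum (hRGC : RGCStmt E) {κ : Type} (J : Finset κ) (F : κ → ℝ → E → ℝ)
    (h : ∀ k ∈ J, RG (F k)) : RG (fun s θ => ∑ k ∈ J, F k s θ) := by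
  classical
  induction J using Finset.induction_on with
  | empty => simpa using hRGC.1 0
  | insert a s ha ih =>
    simp only [Finset.sum_insert ha]
    exact hRGC.2.1 _ _ (h a (Finset.mem_insert_self a s))
      (ih fun k hk => h k (Finset.mem_insert_of_mem hk))

/-- covariance with a linear functional given by coordinates -/
theorem HBB_cv_sum {V : E → ℝ} {t : ℝ} (hV : PP V t) {f : E → ℝ} (hf : GC f)
    {ι : Type} [Fintype ι] (b : OrthonormalBasis ι ℝ E) (c : ι → ℝ) :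
    cv V f (li (∑ k, c k • b k)) = ∑ k, c k * cv V f (li (b k)) := by
  obtain ⟨⟨C, hU⟩, hp⟩ := hV
  have e : li (∑ k, c k • b k) = fun x => ∑ k, c k * li (b k) x := by
    funext x
    unfold li
    rw [sum_inner]
    simp only [real_inner_smul_left]
  have i1 : ∀ k, Integrable (fun x => c k * li (b k) x) (mu V) := fun k =>
    ((HBB_gc_li (b k)).integrable hU).const_mul _
  have i2 : ∀ k, Integrable (fun x => c k * (f x * li (b k) x)) (mu V) := fun k =>
    ((hf.mul (HBB_gc_li (b k))).integrable hU).const_mul _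
  unfold cv
  rw [e]
  have e1 : ∫ x, f x * ∑ k, c k * li (b k) x ∂(mu V) =
      ∑ k, c k * ∫ x, f x * li (b k) x ∂(mu V) := by
    have : (fun x => f x * ∑ k, c k * li (b k) x) =
        fun x => ∑ k, c k * (f x * li (b k) x) := by
      funext x
      rw [Finset.mul_sum]
      exact Finset.sum_congr rfl fun k _ => by ring
    rw [this, integral_finsetSum _ fun k _ => i2 k]
    exact Finset.sum_congr rfl fun k _ => integral_const_mul _ _
  have e2 : ∫ x, ∑ k, c k * li (b k) x ∂(mu V) = ∑ k, c k * ∫ x, li (b k) x ∂(mu V) := by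
    rw [integral_finsetSum _ fun k _ => i1 k]
    exact Finset.sum_congr rfl fun k _ => integral_const_mul _ _
  rw [e1, e2, Finset.mul_sum, ← Finset.sum_sub_distrib]
  exact Finset.sum_congr rfl fun k _ => by ring

/-- the pointwise bound -/
theorem HBB_point (hBAS : BASStmt E) {V : E → ℝ} {t : ℝ} (hV : PP V t) {f : E → ℝ} (hf : GC f)
    {P : ℝ} (hP : cv V f f ≤ P) {ι : Type} [Fintype ι] [DecidableEq ι]
    (b : OrthonormalBasis ι ℝ E) (i : ι) :
    (∑ k, cv V (li (b i)) (li (b k)) * cv V f (li (b k))) ^ 2 ≤ P * ((cm b V) ^ 3) i i := by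
  obtain ⟨-, -, -, h4, -, -, -⟩ := hBAS
  set c : ι → ℝ := fun k => cv V (li (b i)) (li (b k)) with hc
  set w : E := ∑ k, c k • b k with hw
  have e1 : ∑ k, cv V (li (b i)) (li (b k)) * cv V f (li (b k)) = cv V f (li w) :=
    (HBB_cv_sum hV hf b c).symm
  have e2 : cv V (li w) (li w) = ((cm b V) ^ 3) i i := by
    rw [HBB_cv_sum hV (HBB_gc_li w) b c]
    have e3 : ∀ k, cv V (li w) (li (b k)) = ∑ l, c l * cv V (li (b k)) (li (b l)) := by
      intro k
      rw [(h4 V t hV _ _ (HBB_gc_li w) (HBB_gc_li (b k))).2.2.1]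
      exact HBB_cv_sum hV (HBB_gc_li (b k)) b c
    have e4 : ((cm b V) ^ 3) i i = ∑ k, (∑ l, cm b V i l * cm b V l k) * cm b V k i := by
      rw [pow_succ, pow_two, Matrix.mul_apply]
      exact Finset.sum_congr rfl fun k _ => by rw [Matrix.mul_apply]
    rw [e4]
    refine Finset.sum_congr rfl fun k _ => ?_
    rw [e3 k, mul_comm]
    have e5 : cm b V k i = c k := by
      have := (h4 V t hV _ _ (HBB_gc_li (b k)) (HBB_gc_li (b i))).2.2.1
      exact this
    rw [e5]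
    congr 1
    refine Finset.sum_congr rfl fun l _ => ?_
    have e6 : cm b V l k = cv V (li (b k)) (li (b l)) := by
      have := (h4 V t hV _ _ (HBB_gc_li (b l)) (HBB_gc_li (b k))).2.2.1
      exact this
    rw [e6]
    rfl
  rw [e1]
  obtain ⟨h5, -, -, -⟩ := h4 V t hV _ _ hf (HBB_gc_li w)
  obtain ⟨-, h6, -, -⟩ := h4 V t hV _ _ (HBB_gc_li w) (HBB_gc_li w)
  rw [e2] at h5 h6
  exact h5.trans (mul_le_mul_of_nonneg_right hP h6)

theorem HBB_amgm {m β X P Q r a : ℝ} (hm : |m| ≤ β) (ha : 0 < a) (hP : 0 ≤ P) (hQ : 0 ≤ Q)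
    (hr : 0 < r) (hX : X ^ 2 ≤ (r ^ 2 * P) * Q) : 4 * m * X ≤ r * (a * P + 4 / a * β ^ 2 * Q) := by
  have hβ : 0 ≤ β := (abs_nonneg m).trans hm
  have h1 : |4 * m * X| ≤ 4 * β * |X| := by
    rw [abs_mul, abs_mul]
    rw [abs_of_pos (by norm_num : (0:ℝ) < 4)]
    exact mul_le_mul_of_nonneg_right (mul_le_mul_of_nonneg_left hm (by norm_num)) (abs_nonneg X)
  have h2 : |X| ≤ r * (Real.sqrt P * Real.sqrt Q) := by
    apply abs_le_of_sq_le_sq _ (by positivity)
    rw [mul_pow, mul_pow, Real.sq_sqrt hP, Real.sq_sqrt hQ]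
    linarith
  have h3 : 4 * β * (Real.sqrt P * Real.sqrt Q) ≤ a * P + 4 / a * β ^ 2 * Q := by
    have e : a * P + 4 / a * β ^ 2 * Q - 4 * β * (Real.sqrt P * Real.sqrt Q) =
        (a * Real.sqrt P - 2 * β * Real.sqrt Q) ^ 2 / a := by
      have e1 : (a * Real.sqrt P - 2 * β * Real.sqrt Q) ^ 2 = a ^ 2 * P + 4 * β ^ 2 * Q -
          4 * a * β * (Real.sqrt P * Real.sqrt Q) := by
        have := Real.sq_sqrt hP
        have := Real.sq_sqrt hQ
        calc _ = a ^ 2 * Real.sqrt P ^ 2 + 4 * β ^ 2 * Real.sqrt Q ^ 2 -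
            4 * a * β * (Real.sqrt P * Real.sqrt Q) := by ring
          _ = _ := by rw [Real.sq_sqrt hP, Real.sq_sqrt hQ]
      rw [e1]
      field_simp
    have : 0 ≤ (a * Real.sqrt P - 2 * β * Real.sqrt Q) ^ 2 / a := by positivity
    linarith
  calc 4 * m * X ≤ |4 * m * X| := le_abs_self _
    _ ≤ 4 * β * |X| := h1
    _ ≤ 4 * β * (r * (Real.sqrt P * Real.sqrt Q)) :=
        mul_le_mul_of_nonneg_left h2 (by positivity)
    _ = r * (4 * β * (Real.sqrt P * Real.sqrt Q)) := by ring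
    _ ≤ _ := mul_le_mul_of_nonneg_left h3 hr.le

end HBBsec

theorem hbb_thm (E : Type) [NormedAddCommGroup E] [InnerProductSpace ℝ E]
    [FiniteDimensional ℝ E] [MeasurableSpace E] [BorelSpace E]
    (hBAS : BASStmt E) (hPWB : PWBStmt E) (hRGC : RGCStmt E) (hRGP : RGPStmt E)
    (hBAY : BAYStmt E) (hCVR : CVRStmt E) (hCOV : COVStmt E) (hAAG : AAGStmt E) : HBBStmt E := by
  intro U t hPP ι _ _ b m β hm hint φ hφ
  obtain ⟨⟨C, hU⟩, hprobU⟩ := id hPP
  have ht := hU.pos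
  have hr6 := hRGC.2.2.2.2.2.1
  -- the functions
  have hD : ∀ i, ContDiff ℝ ∞ (D (b i) φ) := by
    intro i
    have h1 : ContDiff ℝ ∞ (fderiv ℝ φ) := hφ.1.fderiv_right (m := ∞) (by simp)
    exact h1.clm_apply contDiff_const
  have hDc : ∀ i, HasCompactSupport (D (b i) φ) := fun i => hφ.2.fderiv_apply (𝕜 := ℝ) (b i)
  have hD1 : ∀ i, ContDiff ℝ 1 (D (b i) φ) := fun i => (hD i).of_le (by exact_mod_cast le_top)
  have hDg : ∀ i, GC (D (b i) φ) := by
    intro i
    obtain ⟨A, hA⟩ := (hD i).continuous.bounded_above_of_compact_support (hDc i)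
    exact ⟨(hD i).continuous, Gr.of_bdd hA⟩
  have hDn : ∀ i, GC (fun x => ‖fderiv ℝ (D (b i) φ) x‖) := by
    intro i
    have hc : Continuous (fderiv ℝ (D (b i) φ)) := (hD1 i).continuous_fderiv (by norm_num)
    obtain ⟨A, hA⟩ := hc.bounded_above_of_compact_support ((hDc i).fderiv (𝕜 := ℝ))
    exact ⟨hc.norm, Gr.of_bdd (A := A) fun x => by
      rw [abs_of_nonneg (norm_nonneg _)]; exact hA x⟩
  have hQ : ∀ i, GC (fun x => ‖fderiv ℝ (D (b i) φ) x‖ ^ 2) := fun i => (hDn i).sq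
  set G : ι → ℝ := fun i => ∫ x, ‖fderiv ℝ (D (b i) φ) x‖ ^ 2 ∂(mu U) with hG
  have hGsum : ∫ x, (∑ i, ‖fderiv ℝ (D (b i) φ) x‖ ^ 2) ∂(mu U) = ∑ i, G i :=
    integral_finsetSum _ fun i _ => (hQ i).integrable hU
  -- bounds for the posterior measures
  have hvar : ∀ s, 0 ≤ s → ∀ θ i, cv (pw U s θ) (D (b i) φ) (D (b i) φ) ≤
      1 / (t + s) * pm U s θ (fun x => ‖fderiv ℝ (D (b i) φ) x‖ ^ 2) := by
    intro s hs θ i
    have h1 := (hPWB U t hPP).1 s θ hs
    have h2 := hBAS.2.2.1 _ _ h1 _ (hD1 i) (hDg i).2 (hDn i).2 _ (hBAS.2.1 _ _ h1)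
    rwa [(hPWB U t hPP).2.1 s θ hs] at h2
  have hpm0 : ∀ s, 0 ≤ s → ∀ θ i, 0 ≤ pm U s θ (fun x => ‖fderiv ℝ (D (b i) φ) x‖ ^ 2) := by
    intro s hs θ i
    rw [← (hPWB U t hPP).2.1 s θ hs]
    exact integral_nonneg fun x => by positivity
  -- regularity
  have hPrg : ∀ i, RG (fun s θ => pm U s θ (fun x => ‖fderiv ℝ (D (b i) φ) x‖ ^ 2)) :=
    fun i => (hRGP U t hPP _ (hQ i)).1
  have hArg : ∀ i j, RG (fun s θ => cm b (pw U s θ) i j) := fun i j => (hAAG U t hPP ι b i j).1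
  have hA3 : ∀ i, RG (fun s θ => ((cm b (pw U s θ)) ^ 3) i i) := by
    intro i
    have e : (fun (s : ℝ) (θ : E) => ((cm b (pw U s θ)) ^ 3) i i) = fun s θ =>
        ∑ k, (∑ l, cm b (pw U s θ) i l * cm b (pw U s θ) l k) * cm b (pw U s θ) k i := by
      funext s θ
      rw [pow_succ, pow_two, Matrix.mul_apply]
      exact Finset.sum_congr rfl fun k _ => by rw [Matrix.mul_apply]
    rw [e]
    refine HBB_rg_sum hRGC _ _ fun k _ => ?_
    refine hRGC.2.2.1 _ _ ?_ (hArg k i)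
    exact HBB_rg_sum hRGC _ _ fun l _ => hRGC.2.2.1 _ _ (hArg i l) (hArg l k)
  have hS : ∀ i, RG (fun s θ => ∑ k, cv (pw U s θ) (li (b i)) (li (b k)) *
      cv (pw U s θ) (D (b i) φ) (li (b k))) := by
    intro i
    refine HBB_rg_sum hRGC _ _ fun k _ => ?_
    exact hRGC.2.2.1 _ _ (hCVR U t hPP _ _ (HBB_gc_li _) (HBB_gc_li _))
      (hCVR U t hPP _ _ (hDg i) (HBB_gc_li _))
  have hEXP : ∀ s, 0 < s → ∀ i, EX U s (fun θ => pm U s θ
      (fun x => ‖fderiv ℝ (D (b i) φ) x‖ ^ 2)) = G i := fun s hs i =>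
    (hBAY U t hPP s hs.le).2.2.2.2.2.2 _ (hQ i)
  -- the linear combination
  have hlin : ∀ s, 0 < s → ∀ (x y : ℝ) (i : ι), EX U s (fun θ => x * pm U s θ
      (fun x => ‖fderiv ℝ (D (b i) φ) x‖ ^ 2) + y * ((cm b (pw U s θ)) ^ 3) i i) =
      x * G i + y * EX U s (fun θ => ((cm b (pw U s θ)) ^ 3) i i) := by
    intro s hs x y i
    obtain ⟨-, b2, b3, -, -, -, -⟩ := hBAY U t hPP s hs.le
    rw [b2 (fun θ => x * pm U s θ (fun x => ‖fderiv ℝ (D (b i) φ) x‖ ^ 2))
      (fun θ => y * ((cm b (pw U s θ)) ^ 3) i i)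
      ((GC.const (H := E) x).mul (hr6 _ (hPrg i) s hs).1)
      ((GC.const (H := E) y).mul (hr6 _ (hA3 i) s hs).1),
      b3, b3, hEXP s hs i]
  have htrace : ∀ s, 0 < s → EX U s (fun θ => ((cm b (pw U s θ)) ^ 3).trace) =
      ∑ i, EX U s (fun θ => ((cm b (pw U s θ)) ^ 3) i i) := by
    intro s hs
    obtain ⟨-, b2, -, b4, -, -, -⟩ := hBAY U t hPP s hs.le
    have key : ∀ J : Finset ι, EX U s (fun θ => ∑ i ∈ J, ((cm b (pw U s θ)) ^ 3) i i) =
        ∑ i ∈ J, EX U s (fun θ => ((cm b (pw U s θ)) ^ 3) i i) := by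
      intro J
      induction J using Finset.induction_on with
      | empty => simpa using b4 0
      | insert a J ha ih =>
        simp only [Finset.sum_insert ha]
        rw [b2 (fun θ => ((cm b (pw U s θ)) ^ 3) a a)
          (fun θ => ∑ i ∈ J, ((cm b (pw U s θ)) ^ 3) i i) (hr6 _ (hA3 a) s hs).1
          (HBB_gc_sum J _ fun k _ => (hr6 _ (hA3 k) s hs).1), ih]
    exact key Finset.univ
  -- first part: time in (0, 1)
  have hone : ∀ s, 0 < s → ∀ i, 4 * m i * EX U s (fun θ => ∑ k, cv (pw U s θ) (li (b i))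
      (li (b k)) * cv (pw U s θ) (D (b i) φ) (li (b k))) ≤
      s ^ (-(1:ℝ) / 2) * (1 / 4 * G i + 16 * β ^ 2 *
        EX U s (fun θ => ((cm b (pw U s θ)) ^ 3) i i)) := by
    intro s hs i
    obtain ⟨-, b2, b3, -, b5, -, -⟩ := hBAY U t hPP s hs.le
    rw [← hlin s hs, ← b3, ← b3]
    refine b5 _ _ ((GC.const (H := E) _).mul (hr6 _ (hS i) s hs).1)
      ((GC.const (H := E) _).mul (((GC.const (H := E) _).mul (hr6 _ (hPrg i) s hs).1).add
        ((GC.const (H := E) _).mul (hr6 _ (hA3 i) s hs).1))) fun θ => ?_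
    have hV := (hPWB U t hPP).1 s θ hs.le
    have hle : cv (pw U s θ) (D (b i) φ) (D (b i) φ) ≤
        1 / s * pm U s θ (fun x => ‖fderiv ℝ (D (b i) φ) x‖ ^ 2) := by
      refine (hvar s hs.le θ i).trans ?_
      apply mul_le_mul_of_nonneg_right _ (hpm0 s hs.le θ i)
      exact one_div_le_one_div_of_le hs (by linarith)
    have hpt := HBB_point hBAS hV (hDg i) hle b i
    have hA0 : 0 ≤ ((cm b (pw U s θ)) ^ 3) i i :=
      ((hBAS.2.2.2.2.2.1 _ _ hV ι b).1.pow 3).diag_nonneg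
    have hr2 : (s ^ (-(1:ℝ) / 2)) ^ 2 = 1 / s := by
      rw [← Real.rpow_natCast, ← Real.rpow_mul hs.le]
      norm_num
      rw [Real.rpow_neg_one]
    have := HBB_amgm (m := m i) (β := β) (r := s ^ (-(1:ℝ) / 2)) (a := 1 / 4)
      (X := ∑ k, cv (pw U s θ) (li (b i)) (li (b k)) * cv (pw U s θ) (D (b i) φ) (li (b k)))
      (hm i) (by norm_num) (hpm0 s hs.le θ i) hA0 (Real.rpow_pos_of_pos hs _)
      (by rw [hr2]; exact hpt)
    refine this.trans (le_of_eq ?_)
    norm_num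
  -- second part: time 1
  have htwo : ∀ i, 4 * m i * EX U 1 (fun θ => cv (pw U 1 θ) (li (b i)) (D (b i) φ)) ≤
      1 / 2 * G i + 16 * β ^ 2 * EX U 1 (fun θ => cm b (pw U 1 θ) i i) := by
    intro i
    obtain ⟨-, b2, b3, -, b5, -, -⟩ := hBAY U t hPP 1 zero_le_one
    have hc := hr6 _ (hCVR U t hPP _ _ (HBB_gc_li (b i)) (hDg i)) 1 one_pos
    have e : EX U 1 (fun θ => 1 / 2 * pm U 1 θ (fun x => ‖fderiv ℝ (D (b i) φ) x‖ ^ 2) +
        16 * β ^ 2 * cm b (pw U 1 θ) i i) =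
        1 / 2 * G i + 16 * β ^ 2 * EX U 1 (fun θ => cm b (pw U 1 θ) i i) := by
      rw [b2 (fun θ => 1 / 2 * pm U 1 θ (fun x => ‖fderiv ℝ (D (b i) φ) x‖ ^ 2))
        (fun θ => 16 * β ^ 2 * cm b (pw U 1 θ) i i)
        ((GC.const (H := E) _).mul (hr6 _ (hPrg i) 1 one_pos).1)
        ((GC.const (H := E) _).mul (hr6 _ (hArg i i) 1 one_pos).1),
        b3, b3, hEXP 1 one_pos i]
    rw [← e, ← b3]
    refine b5 _ _ ((GC.const (H := E) _).mul hc.1)
      (((GC.const (H := E) _).mul (hr6 _ (hPrg i) 1 one_pos).1).add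
        ((GC.const (H := E) _).mul (hr6 _ (hArg i i) 1 one_pos).1)) fun θ => ?_
    have hV := (hPWB U t hPP).1 1 θ zero_le_one
    have hle : cv (pw U 1 θ) (D (b i) φ) (D (b i) φ) ≤
        pm U 1 θ (fun x => ‖fderiv ℝ (D (b i) φ) x‖ ^ 2) := by
      refine (hvar 1 zero_le_one θ i).trans ?_
      have h0 := hpm0 1 zero_le_one θ i
      have : 1 / (t + 1) ≤ 1 := by
        rw [div_le_one (by linarith)]; linarith
      nlinarith
    have h4 := hBAS.2.2.2.1 _ _ hV _ _ (HBB_gc_li (b i)) (hDg i)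
    have h5 := hBAS.2.2.2.1 _ _ hV _ _ (HBB_gc_li (b i)) (HBB_gc_li (b i))
    have hcm : cm b (pw U 1 θ) i i = cv (pw U 1 θ) (li (b i)) (li (b i)) := rfl
    have hX : (cv (pw U 1 θ) (li (b i)) (D (b i) φ)) ^ 2 ≤
        (1 ^ 2 * pm U 1 θ (fun x => ‖fderiv ℝ (D (b i) φ) x‖ ^ 2)) * cm b (pw U 1 θ) i i := by
      rw [hcm, one_pow, one_mul, mul_comm]
      exact h4.1.trans (mul_le_mul_of_nonneg_left hle h5.2.1)
    have := HBB_amgm (m := m i) (β := β) (r := 1) (a := 1 / 2)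
      (X := cv (pw U 1 θ) (li (b i)) (D (b i) φ)) (hm i) (by norm_num)
      (hpm0 1 zero_le_one θ i) (by rw [hcm]; exact h5.2.1) one_pos hX
    have hnn : 0 ≤ β ^ 2 * cm b (pw U 1 θ) i i := mul_nonneg (sq_nonneg _) (by
      rw [hcm]; exact h5.2.1)
    norm_num at this ⊢
    linarith
  -- assembly
  have hcov : ∀ i, cv U (li (b i)) (D (b i) φ) =
      EX U 1 (fun θ => cv (pw U 1 θ) (li (b i)) (D (b i) φ)) +
      ∫ s in (0:ℝ)..1, EX U s (fun θ => ∑ k, cv (pw U s θ) (li (b i)) (li (b k)) *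
        cv (pw U s θ) (D (b i) φ) (li (b k))) := fun i =>
    (hCOV U t hPP _ _ (HBB_gc_li (b i)) (hDg i) ι b 1 one_pos).2
  have hii : ∀ i, IntervalIntegrable (fun s => EX U s (fun θ => ∑ k, cv (pw U s θ) (li (b i))
      (li (b k)) * cv (pw U s θ) (D (b i) φ) (li (b k)))) volume 0 1 := fun i =>
    (hCOV U t hPP _ _ (HBB_gc_li (b i)) (hDg i) ι b 1 one_pos).1
  have hrp : IntervalIntegrable (fun s : ℝ => s ^ (-(1:ℝ) / 2)) volume 0 1 :=
    intervalIntegral.intervalIntegrable_rpow' (by norm_num)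
  have hrpi : ∫ s in (0:ℝ)..1, s ^ (-(1:ℝ) / 2) = 2 := by
    rw [integral_rpow (Or.inl (by norm_num))]
    norm_num
  have hmain : ∑ i, 4 * m i * ∫ s in (0:ℝ)..1, EX U s (fun θ => ∑ k, cv (pw U s θ) (li (b i))
      (li (b k)) * cv (pw U s θ) (D (b i) φ) (li (b k))) ≤
      1 / 2 * ∑ i, G i + 16 * β ^ 2 * ∫ s in (0:ℝ)..1, s ^ (-(1:ℝ) / 2) *
        EX U s (fun θ => ((cm b (pw U s θ)) ^ 3).trace) := by
    have e1 : ∑ i, 4 * m i * ∫ s in (0:ℝ)..1, EX U s (fun θ => ∑ k, cv (pw U s θ) (li (b i))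
        (li (b k)) * cv (pw U s θ) (D (b i) φ) (li (b k))) =
        ∫ s in (0:ℝ)..1, ∑ i, 4 * m i * EX U s (fun θ => ∑ k, cv (pw U s θ) (li (b i))
          (li (b k)) * cv (pw U s θ) (D (b i) φ) (li (b k))) := by
      rw [intervalIntegral.integral_finsetSum fun i _ => (hii i).const_mul _]
      exact Finset.sum_congr rfl fun i _ => (intervalIntegral.integral_const_mul _ _).symm
    have e2 : 1 / 2 * ∑ i, G i + 16 * β ^ 2 * ∫ s in (0:ℝ)..1, s ^ (-(1:ℝ) / 2) *
        EX U s (fun θ => ((cm b (pw U s θ)) ^ 3).trace) =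
        ∫ s in (0:ℝ)..1, ((1 / 4 * ∑ i, G i) * s ^ (-(1:ℝ) / 2) + 16 * β ^ 2 *
          (s ^ (-(1:ℝ) / 2) * EX U s (fun θ => ((cm b (pw U s θ)) ^ 3).trace))) := by
      rw [intervalIntegral.integral_add (hrp.const_mul _) (hint.const_mul _),
        intervalIntegral.integral_const_mul, intervalIntegral.integral_const_mul, hrpi]
      ring
    rw [e1, e2]
    refine intervalIntegral.integral_mono_on_of_le_Ioo zero_le_one ?_
      ((hrp.const_mul _).add (hint.const_mul _)) fun s hs => ?_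
    · have h := IntervalIntegrable.sum Finset.univ
        (fun i (_ : i ∈ Finset.univ) => (hii i).const_mul (4 * m i))
      have e : (fun s => ∑ i, 4 * m i * EX U s (fun θ => ∑ k, cv (pw U s θ) (li (b i))
          (li (b k)) * cv (pw U s θ) (D (b i) φ) (li (b k)))) =
          ∑ i, fun s => 4 * m i * EX U s (fun θ => ∑ k, cv (pw U s θ) (li (b i))
            (li (b k)) * cv (pw U s θ) (D (b i) φ) (li (b k))) := by
        funext s
        simp only [Finset.sum_apply]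
      rw [e]
      exact h
    · rw [htrace s hs.1]
      calc ∑ i, 4 * m i * EX U s (fun θ => ∑ k, cv (pw U s θ) (li (b i))
            (li (b k)) * cv (pw U s θ) (D (b i) φ) (li (b k))) ≤
            ∑ i, s ^ (-(1:ℝ) / 2) * (1 / 4 * G i + 16 * β ^ 2 *
              EX U s (fun θ => ((cm b (pw U s θ)) ^ 3) i i)) :=
            Finset.sum_le_sum fun i _ => hone s hs.1 i
        _ = _ := by
            rw [← Finset.mul_sum, Finset.sum_add_distrib, ← Finset.mul_sum, ← Finset.mul_sum]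
            ring
  have htr1 : EX U 1 (fun θ => (cm b (pw U 1 θ)).trace) =
      ∑ i, EX U 1 (fun θ => cm b (pw U 1 θ) i i) := by
    obtain ⟨-, b2, -, b4, -, -, -⟩ := hBAY U t hPP 1 zero_le_one
    have key : ∀ J : Finset ι, EX U 1 (fun θ => ∑ i ∈ J, cm b (pw U 1 θ) i i) =
        ∑ i ∈ J, EX U 1 (fun θ => cm b (pw U 1 θ) i i) := by
      intro J
      induction J using Finset.induction_on with
      | empty => simpa using b4 0
      | insert a J ha ih =>
        simp only [Finset.sum_insert ha]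
        rw [b2 (fun θ => cm b (pw U 1 θ) a a)
          (fun θ => ∑ i ∈ J, cm b (pw U 1 θ) i i) (hr6 _ (hArg a a) 1 one_pos).1
          (HBB_gc_sum J _ fun k _ => (hr6 _ (hArg k k) 1 one_pos).1), ih]
    exact key Finset.univ
  rw [hGsum, htr1]
  have hsum2 : ∑ i, 4 * m i * EX U 1 (fun θ => cv (pw U 1 θ) (li (b i)) (D (b i) φ)) ≤
      1 / 2 * ∑ i, G i + 16 * β ^ 2 * ∑ i, EX U 1 (fun θ => cm b (pw U 1 θ) i i) := by
    refine (Finset.sum_le_sum fun i _ => htwo i).trans (le_of_eq ?_)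
    rw [Finset.sum_add_distrib, ← Finset.mul_sum, ← Finset.mul_sum]
  have hsplit : 4 * (∑ i, m i * cv U (li (b i)) (D (b i) φ)) =
      (∑ i, 4 * m i * EX U 1 (fun θ => cv (pw U 1 θ) (li (b i)) (D (b i) φ))) +
      ∑ i, 4 * m i * ∫ s in (0:ℝ)..1, EX U s (fun θ => ∑ k, cv (pw U s θ) (li (b i))
        (li (b k)) * cv (pw U s θ) (D (b i) φ) (li (b k))) := by
    rw [Finset.mul_sum, ← Finset.sum_add_distrib]
    refine Finset.sum_congr rfl fun i _ => ?_
    rw [hcov i]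
    ring
  rw [hsplit]
  linarith

end Pool.Agent.H73.KG
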